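import Mathlib
import Pool.Agent.H516.PCF.All

set_option autoImplicit false

namespace Pool.Agent.H177.PCF

open Pool.Agent.H516.PCF

/-- infinite fibres -/
lemma inf_fiber {α β : Type} (s : Set α) (f : α → β) (hs : s.Infinite) (hf : (f '' s).Finite) :
    ∃ b, {x | x ∈ s ∧ f x = b}.Infinite := by
  by_contra hcon
  push Not at hcon
  apply hs
  refine (hf.biUnion (t := fun b => {x | x ∈ s ∧ f x = b}) (fun b _ => hcon b)).subset ?_
  intro x hx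
  exact Set.mem_biUnion (Set.mem_image_of_mem f hx) ⟨hx, rfl⟩

/-- sets of reals without four different elements are finite -/
lemma fin_of_four (s : Set ℝ) (h : ∀ a ∈ s, ∀ b ∈ s, ∀ c ∈ s, ∀ d ∈ s, a < b → b < c → ¬ c < d) : s.Finite := by
  by_contra hcon
  obtain ⟨t, hts, htc⟩ := Set.Infinite.exists_subset_card_eq (s := s) hcon 4
  have hm : ∀ i, t.orderEmbOfFin htc i ∈ s := fun i => hts (Finset.orderEmbOfFin_mem t htc i)
  have hl : ∀ i j : Fin 4, i < j → t.orderEmbOfFin htc i < t.orderEmbOfFin htc j :=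
    fun i j hij => (t.orderEmbOfFin htc).strictMono hij
  exact h _ (hm 0) _ (hm 1) _ (hm 2) _ (hm 3) (hl 0 1 (by decide)) (hl 1 2 (by decide)) (hl 2 3 (by decide))

theorem comb (hNAB : S_NAB) : S_COMB := by
  intro F _ _ _ p w hp hw A O κ hA hO hOA hκ hFC
  obtain ⟨-, -, -, -, -, hsym, -, htri, hiso, -, -, -⟩ := hNAB F p w hp hw
  -- one value of `κ`
  obtain ⟨κ₀, hΓ⟩ := inf_fiber O κ hO (hA.subset (by rintro _ ⟨x, hx, rfl⟩; exact hκ x hx))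
  set Γ : Set F := {x | x ∈ O ∧ κ x = κ₀} with hΓdef
  have hκ₀ : ∀ x ∈ O, κ₀ ≠ x := by
    intro x hx h
    obtain ⟨y, hy⟩ := hΓ.nonempty
    have h1 := hκ y hy.1
    rw [hy.2, h] at h1
    exact hOA x hx h1
  -- step 1
  have h1 : ((fun x => w (x - κ₀)) '' Γ).Finite := by
    apply fin_of_four
    rintro _ ⟨g1, hg1, rfl⟩ _ ⟨g2, hg2, rfl⟩ _ ⟨g3, hg3, rfl⟩ _ ⟨g4, hg4, rfl⟩ h12 h23 h34
    simp only at h12 h23 h34
    have key : ∀ a ∈ Γ, ∀ b ∈ Γ, w (a - κ₀) < w (b - κ₀) → a ≠ b ∧ w (a - b) = w (a - κ₀) := by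
      intro a ha b hb hab
      apply hiso a κ₀ b (hκ₀ a ha.1).symm (hκ₀ b hb.1)
      rw [hsym κ₀ b (hκ₀ b hb.1)]
      exact hab
    obtain ⟨n12, e12⟩ := key g1 hg1 g2 hg2 h12
    obtain ⟨n23, e23⟩ := key g2 hg2 g3 hg3 h23
    obtain ⟨n34, e34⟩ := key g3 hg3 g4 hg4 h34
    obtain ⟨n14, e14⟩ := key g1 hg1 g4 hg4 (h12.trans (h23.trans h34))
    obtain ⟨n24, e24⟩ := key g2 hg2 g4 hg4 (h23.trans h34)
    have hfc := hFC g2 hg2.1 g4 hg4.1 g1 hg1.1 g3 hg3.1 n24.symm n12 n14 n23.symm n34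
    apply hfc
    rw [hg2.2, hsym g3 g2 n23.symm, e23, e34, e12, e14, hsym κ₀ g2 (hκ₀ g2 hg2.1), hsym κ₀ g4 (hκ₀ g4 hg4.1)]
    constructor
    · linarith
    · linarith
  obtain ⟨δ, hΓ'⟩ := inf_fiber Γ (fun x => w (x - κ₀)) hΓ h1
  set Γ' : Set F := {x | x ∈ Γ ∧ w (x - κ₀) = δ} with hΓ'def
  -- step 2
  have h2 : ∀ γ ∈ Γ', ∀ x ∈ Γ', ∀ y ∈ Γ', ∀ z ∈ Γ', x ≠ γ → y ≠ γ → z ≠ γ → w (z - γ) < w (y - γ) →
      ¬ w (y - γ) < w (x - γ) := by
    intro γ hγ x hx y hy z hz nx ny nz hzy hyx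
    have exz : z ≠ x ∧ w (z - x) = w (z - γ) := by
      apply hiso z γ x nz nx.symm
      rw [hsym γ x nx.symm]
      exact hzy.trans hyx
    have eyz : z ≠ y ∧ w (z - y) = w (z - γ) := by
      apply hiso z γ y nz ny.symm
      rw [hsym γ y ny.symm]
      exact hzy
    apply hFC γ hγ.1.1 z hz.1.1 x hx.1.1 y hy.1.1 nz nx exz.1.symm ny eyz.1.symm
    rw [hγ.1.2, hsym κ₀ γ (hκ₀ γ hγ.1.1), hsym κ₀ z (hκ₀ z hz.1.1), hγ.2, hz.2, hsym x z exz.1.symm,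
      hsym y z eyz.1.symm, exz.2, eyz.2]
    constructor
    · linarith
    · linarith
  -- step 3
  obtain ⟨γ₀, hγ₀⟩ := hΓ'.nonempty
  have hinf : (Γ' \ {γ₀}).Infinite := hΓ'.sdiff (Set.finite_singleton _)
  have h3 : ((fun x => w (x - γ₀)) '' (Γ' \ {γ₀})).Finite := by
    apply fin_of_four
    rintro _ ⟨g1, hg1, rfl⟩ _ ⟨g2, hg2, rfl⟩ _ ⟨g3, hg3, rfl⟩ _ ⟨g4, hg4, rfl⟩ h12 h23 _
    exact h2 γ₀ hγ₀ g3 hg3.1 g2 hg2.1 g1 hg1.1 hg3.2 hg2.2 hg1.2 h12 h23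
  obtain ⟨t, hS⟩ := inf_fiber _ (fun x => w (x - γ₀)) hinf h3
  set S : Set F := {x | x ∈ Γ' \ {γ₀} ∧ w (x - γ₀) = t} with hSdef
  have hSt : ∀ x ∈ S, ∀ y ∈ S, x ≠ y → t ≤ w (x - y) := by
    intro x hx y hy hxy
    have h := htri x γ₀ y hx.1.2 (fun h => hy.1.2 h.symm) hxy
    rw [hsym γ₀ y (fun h => hy.1.2 h.symm)] at h
    have hx2 : w (x - γ₀) = t := hx.2
    have hy2 : w (y - γ₀) = t := hy.2
    rw [hx2, hy2, min_self] at h
    exact h
  -- an element of `S` sees at most one distance larger than `t`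
  have hone : ∀ x ∈ S, ∀ y ∈ Γ', ∀ z ∈ Γ', y ≠ x → z ≠ x → t < w (z - x) → ¬ w (z - x) < w (y - x) := by
    intro x hx y hy z hz nyx nzx hz1 hzy
    have hx0 : γ₀ ≠ x := fun h => hx.1.2 h.symm
    have hx2 : w (x - γ₀) = t := hx.2
    apply h2 x hx.1.1 y hy z hz γ₀ hγ₀ nyx nzx hx0 _ hzy
    rw [hsym γ₀ x hx0, hx2]
    exact hz1
  by_cases hcl : ∃ x₀ ∈ S, {y | y ∈ S ∧ y ≠ x₀ ∧ t < w (y - x₀)}.Infinite
  · obtain ⟨x₀, hx₀, hS1⟩ := hcl
    set S1 : Set F := {y | y ∈ S ∧ y ≠ x₀ ∧ t < w (y - x₀)} with hS1def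
    obtain ⟨y₀, hy₀⟩ := hS1.nonempty
    have hconst : ∀ y ∈ S1, w (y - x₀) = w (y₀ - x₀) := by
      intro y hy
      apply le_antisymm
      · exact not_lt.mp (hone x₀ hx₀ y hy.1.1.1 y₀ hy₀.1.1.1 hy.2.1 hy₀.2.1 hy₀.2.2)
      · exact not_lt.mp (hone x₀ hx₀ y₀ hy₀.1.1.1 y hy.1.1.1 hy₀.2.1 hy.2.1 hy.2.2)
    refine ⟨S1, κ₀, w (y₀ - x₀), ?_, hS1, ?_, ?_⟩
    · intro y hy
      exact hy.1.1.1.1.1
    · intro y hy
      exact hy.1.1.1.1.2
    · intro y hy z hz hyz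
      apply le_antisymm
      · rw [← hconst y hy, hsym y z hyz, hsym y x₀ hy.2.1]
        refine not_lt.mp (hone y hy.1 z hz.1.1.1 x₀ hx₀.1.1 hyz.symm hy.2.1.symm ?_)
        rw [hsym x₀ y hy.2.1.symm]
        exact hy.2.2
      · have h := htri y x₀ z hy.2.1 hz.2.1.symm hyz
        rw [hsym x₀ z hz.2.1.symm, hconst y hy, hconst z hz, min_self] at h
        exact h
  · push Not at hcl
    obtain ⟨m, hm⟩ := zorn_subset {E : Set F | E ⊆ S ∧ E.Pairwise (fun x y => w (x - y) = t)} (by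
      intro c hc hchain
      refine ⟨⋃₀ c, ⟨Set.sUnion_subset (fun E hE => (hc hE).1), ?_⟩, fun s hs => Set.subset_sUnion_of_mem hs⟩
      rw [Set.pairwise_sUnion hchain.directedOn]
      exact fun E hE => (hc hE).2)
    have hmS : m ⊆ S := hm.prop.1
    have hmP := hm.prop.2
    refine ⟨m, κ₀, t, fun x hx => (hmS hx).1.1.1.1, ?_, fun x hx => (hmS hx).1.1.1.2, fun x hx y hy hxy => hmP hx hy hxy⟩
    intro hfin
    apply hS
    refine (hfin.union (hfin.biUnion (t := fun e => {y | y ∈ S ∧ y ≠ e ∧ t < w (y - e)})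
      (fun e he => hcl e (hmS he)))).subset ?_
    intro x hx
    by_cases hxm : x ∈ m
    · exact Or.inl hxm
    · right
      by_contra hcon
      have hall : ∀ e ∈ m, w (x - e) = t := by
        intro e he
        have hne : x ≠ e := fun h => hxm (h ▸ he)
        apply le_antisymm _ (hSt x hx e (hmS he) hne)
        by_contra hlt
        exact hcon (Set.mem_biUnion he ⟨hx, hne, not_le.mp hlt⟩)
      have hins : insert x m ∈ {E : Set F | E ⊆ S ∧ E.Pairwise (fun x y => w (x - y) = t)} := by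
        refine ⟨Set.insert_subset hx hmS, ?_⟩
        rw [Set.pairwise_insert]
        refine ⟨hmP, fun e he hne => ⟨hall e he, ?_⟩⟩
        rw [hsym e x hne.symm]
        exact hall e he
      exact hxm (hm.le_of_ge hins (Set.subset_insert x m) (Set.mem_insert x m))

end Pool.Agent.H177.PCF
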